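import Mathlib

namespace Pool.Agent.Results.MP_3f28ca_an.Parry

open Filter Topology MeasureTheory

/-- The golden ratio. -/
noncomputable def τ : ℝ := (1 + √5) / 2

/-- The realisations; the letter `a` is `false`, the letter `b` is `true`:
`a ↦ aa, aba` and `b ↦ ba, bab`. -/
def rea : Bool → Bool → List Bool
  | false, false => [false, false]
  | false, true => [false, true, false]
  | true, false => [true, false]
  | true, true => [true, false, true]

/-- The probabilities of the two realisations (the same for both letters). -/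
noncomputable def pr : Bool → ℝ
  | false => τ⁻¹
  | true => τ⁻¹ ^ 2

/-- The substitution matrix. -/
noncomputable def mat (β α : Bool) : ℝ := ∑ i, pr i * (rea α i).count β

/-- Expectation of `f` at the random word obtained from `u` by replacing each letter
independently by one of its realisations. -/
noncomputable def sub : List Bool → (List Bool → ℝ) → ℝ
  | [], f => f []
  | c :: u, f => ∑ i, pr i * sub u fun w => f (rea c i ++ w)

/-- Expectation of `f` at the `n`-th iterate of the random substitution started from `α`. -/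
noncomputable def iter (α : Bool) : ℕ → (List Bool → ℝ) → ℝ
  | 0, f => f [α]
  | n + 1, f => iter α n fun u => sub u f

/-- Transition probabilities of the Parry measure. -/
noncomputable def tr : Bool → Bool → ℝ
  | false, false => τ⁻¹
  | false, true => τ⁻¹ ^ 2
  | true, false => 1
  | true, true => 0

/-- Initial distribution of the Parry measure. -/
noncomputable def ini : Bool → ℝ
  | false => τ ^ 2 / (τ ^ 2 + 1)
  | true => 1 / (τ ^ 2 + 1)

/-- Product of the transition probabilities along `c :: v`. -/
noncomputable def path : Bool → List Bool → ℝ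
  | _, [] => 1
  | c, d :: v => tr c d * path d v

/-- Parry measure of the cylinder `[v]`. -/
noncomputable def parry : List Bool → ℝ
  | [] => 1
  | c :: v => ini c * path c v

/-- Number of occurrences of `v` in a word. -/
def occ (v : List Bool) : List Bool → ℕ
  | [] => 0
  | c :: u => (if v <+: c :: u then 1 else 0) + occ v u

lemma tau_pos : 0 < τ := by unfold τ; positivity

lemma tau_sq : τ ^ 2 = τ + 1 := by
  unfold τ
  have := Real.sq_sqrt (show (0 : ℝ) ≤ 5 by norm_num)
  nlinarith

lemma pr_sum : τ⁻¹ + τ⁻¹ ^ 2 = 1 := by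
  have := tau_pos
  field_simp
  linarith [tau_sq]

lemma q_pos : 0 < τ⁻¹ := inv_pos.2 tau_pos

lemma pr_pos (i : Bool) : 0 < pr i := by
  have := q_pos
  cases i <;> simp only [pr] <;> positivity

lemma tr_nonneg (c d : Bool) : 0 ≤ tr c d := by
  have := q_pos
  cases c <;> cases d <;> simp only [tr] <;> positivity

lemma tr_sum (c : Bool) : tr c true + tr c false = 1 := by
  cases c <;> simp only [tr] <;> linarith [pr_sum]

lemma sub_mono {f g : List Bool → ℝ} (u : List Bool)
    (h : ∀ w, 2 * u.length ≤ w.length → f w ≤ g w) : sub u f ≤ sub u g := by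
  induction u generalizing f g with
  | nil => exact h _ (by simp)
  | cons c u ih =>
    refine Finset.sum_le_sum fun i _ => mul_le_mul_of_nonneg_left (ih fun w hw => h _ ?_)
      (pr_pos i).le
    cases c <;> cases i <;> simp [rea] at hw ⊢ <;> omega

lemma sub_const (u : List Bool) (a : ℝ) : (sub u fun _ => a) = a := by
  induction u with
  | nil => rfl
  | cons c u ih =>
    simp only [sub, ih, Fintype.sum_bool, pr]
    linear_combination a * pr_sum

lemma iter_mono (α : Bool) (n : ℕ) {f g : List Bool → ℝ}
    (h : ∀ w, 2 ^ n ≤ w.length → f w ≤ g w) : iter α n f ≤ iter α n g := by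
  induction n generalizing f g with
  | zero => exact h _ (by simp)
  | succ n ih =>
    exact ih fun u hu => sub_mono u fun w hw => h w (by rw [pow_succ]; omega)

lemma iter_const (α : Bool) (n : ℕ) (a : ℝ) : (iter α n fun _ => a) = a := by
  induction n with
  | zero => rfl
  | succ n ih => simp only [iter, sub_const, ih]

/-- Expectation for the first `m` letters of the Markov chain started at `c`. -/
noncomputable def mk : Bool → ℕ → (List Bool → ℝ) → ℝ
  | _, 0, f => f []
  | c, m + 1, f => ∑ d, tr c d * mk d m fun w => f (c :: w)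

lemma mk_mono (c : Bool) (m : ℕ) {f g : List Bool → ℝ} (h : ∀ w, w.length = m → f w ≤ g w) :
    mk c m f ≤ mk c m g := by
  induction m generalizing c f g with
  | zero => exact h _ rfl
  | succ m ih =>
    exact Finset.sum_le_sum fun d _ => mul_le_mul_of_nonneg_left
      (ih d fun w hw => h _ (by simp [hw])) (tr_nonneg c d)

lemma mk_const (c : Bool) (m : ℕ) (a : ℝ) : (mk c m fun _ => a) = a := by
  induction m generalizing c with
  | zero => rfl
  | succ m ih =>
    simp only [mk, ih, Fintype.sum_bool]
    linear_combination a * tr_sum c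

lemma mk_lin (c : Bool) (m : ℕ) (a b : ℝ) (f g : List Bool → ℝ) :
    (mk c m fun w => a * f w + b * g w) = a * mk c m f + b * mk c m g := by
  induction m generalizing c f g with
  | zero => rfl
  | succ m ih =>
    simp only [mk, ih, Fintype.sum_bool]
    ring

/-- `f` depends only on the first `k` letters. -/
def Dep (k : ℕ) (f : List Bool → ℝ) : Prop := ∀ u w, k ≤ u.length → f (u ++ w) = f u

lemma Dep.app {k : ℕ} {f : List Bool → ℝ} (h : Dep (k + 1) f) (c : Bool) (s : List Bool) :
    Dep k fun w => f (c :: (s ++ w)) := fun u w hu => by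
  have := h (c :: (s ++ u)) w (by simp; omega)
  simpa using this

lemma Dep.zero {f : List Bool → ℝ} (h : Dep 0 f) : f = fun _ => f [] :=
  funext fun w => h [] w le_rfl

lemma stab {k m : ℕ} {f : List Bool → ℝ} (h : Dep k f) (hm : k ≤ m) (c : Bool) :
    mk c (m + 1) f = mk c m f := by
  induction k generalizing m f c with
  | zero => rw [h.zero, mk_const, mk_const]
  | succ k ih =>
    obtain ⟨m, rfl⟩ : ∃ m', m = m' + 1 := ⟨m - 1, by omega⟩
    rw [mk, mk]
    exact Finset.sum_congr rfl fun d _ => congrArg _ (ih (h.app c []) (by omega) d)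

lemma invar {k m : ℕ} {f : List Bool → ℝ} (h : Dep k f) (hm : k ≤ m) (c : Bool) :
    (mk c m fun u => sub u f) = mk c m f := by
  induction k generalizing m f c with
  | zero => rw [h.zero]; simp only [sub_const]
  | succ k ih =>
    obtain ⟨m, rfl⟩ : ∃ m', m = m' + 1 := ⟨m - 1, by omega⟩
    have hk : k ≤ m := by omega
    rw [← stab h hm, ← stab h (by omega : k + 1 ≤ m + 1 + 1)]
    cases c
    · have e1 := fun d => ih (h.app false [false]) hk d
      have e2 := fun d => ih (h.app false [true, false]) hk d
      have a := stab (h.app false [false]) hk true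
      have b := stab (h.app false [false]) hk false
      simp only [List.cons_append, List.nil_append] at e1 e2
      simp only [mk, Fintype.sum_bool, sub, rea, mk_lin, List.cons_append, List.nil_append, e1, e2,
        tr, pr] at a b ⊢
      linear_combination (-τ⁻¹ * τ⁻¹ ^ 2) * a - τ⁻¹ * τ⁻¹ * b
    · have e1 := fun d => ih (h.app true [false]) hk d
      have e2 := fun d => ih (h.app true [false, true]) hk d
      have b := stab (h.app true [false]) hk false
      simp only [List.cons_append, List.nil_append] at e1 e2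
      simp only [mk, Fintype.sum_bool, sub, rea, mk_lin, List.cons_append, List.nil_append, e1, e2,
        tr, pr] at b ⊢
      linear_combination (-τ⁻¹) * b

lemma sub_app (u w : List Bool) (f : List Bool → ℝ) :
    sub (u ++ w) f = sub u fun x => sub w fun y => f (x ++ y) := by
  induction u generalizing f with
  | nil => rfl
  | cons c u ih => simp only [List.cons_append, sub, ih, List.append_assoc]

lemma dom (α : Bool) (n : ℕ) {k : ℕ} {f : List Bool → ℝ} (h : Dep k f)
    (hm : ∀ u w, f u ≤ f (u ++ w)) : iter α n f ≤ mk α (k + 1) f := by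
  induction n generalizing f with
  | zero =>
    rw [← mk_const α (k + 1) (iter α 0 f), mk, mk]
    exact Finset.sum_le_sum fun d _ => mul_le_mul_of_nonneg_left
      (mk_mono d k fun w _ => hm [α] w) (tr_nonneg α d)
  | succ n ih =>
    rw [← invar h (Nat.le_succ k)]
    refine ih (fun u w hu => ?_) fun u w => ?_
    · rw [sub_app]
      have e : ∀ x : List Bool, 2 * u.length ≤ x.length → (sub w fun y => f (x ++ y)) = f x :=
        fun x hx => by simp only [h x _ (by omega), sub_const]
      exact le_antisymm (sub_mono u fun x hx => (e x hx).le) (sub_mono u fun x hx => (e x hx).ge)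
    · rw [sub_app]
      exact sub_mono u fun x _ => (sub_const w _).ge.trans (sub_mono w fun y _ => hm x y)

/-- Centred indicator of an occurrence at the start. -/
noncomputable def II (v u : List Bool) : ℝ := (if v <+: u then 1 else 0) - parry v

/-- Centred number of occurrences. -/
noncomputable def SS (v u : List Bool) : ℝ := occ v u - parry v * u.length

lemma SS_cons (v : List Bool) (c : Bool) (u : List Bool) :
    SS v (c :: u) = II v (c :: u) + SS v u := by
  simp only [SS, II, occ, List.length_cons]
  push_cast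
  ring

lemma path_mem (c : Bool) (v : List Bool) : 0 ≤ path c v ∧ path c v ≤ 1 := by
  induction v generalizing c with
  | nil => simp [path]
  | cons d v ih =>
    have h1 : tr c d ≤ 1 := by
      cases d <;> linarith [tr_sum c, tr_nonneg c true, tr_nonneg c false]
    exact ⟨mul_nonneg (tr_nonneg c d) (ih d).1, mul_le_one₀ h1 (ih d).1 (ih d).2⟩

lemma ini_sum : ini true + ini false = 1 := by
  simp only [ini]
  field_simp
  ring

lemma ini_pos (c : Bool) : 0 ≤ ini c := by cases c <;> simp only [ini] <;> positivity

lemma II_le (v u : List Bool) : |II v u| ≤ 1 := by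
  have : 0 ≤ parry v ∧ parry v ≤ 1 := by
    cases v with
    | nil => simp [parry]
    | cons c v =>
      have h1 : ini c ≤ 1 := by cases c <;> linarith [ini_sum, ini_pos true, ini_pos false]
      exact ⟨mul_nonneg (ini_pos c) (path_mem c v).1,
        mul_le_one₀ h1 (path_mem c v).1 (path_mem c v).2⟩
  unfold II
  rw [abs_le]
  split_ifs <;> constructor <;> linarith [this.1, this.2]

lemma II_dep (v : List Bool) : Dep v.length (II v) := fun u w hu => by
  unfold II
  congr 2
  exact propext ⟨fun h => List.prefix_of_prefix_length_le h (List.prefix_append u w) hu,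
    fun h => h.trans (List.prefix_append u w)⟩

lemma mk_pre (d : Bool) (v : List Bool) (c : Bool) {m : ℕ} (hm : v.length + 1 ≤ m) :
    (mk c m fun u => if d :: v <+: u then 1 else 0) = if c = d then path c v else 0 := by
  induction v generalizing c d m with
  | nil =>
    obtain ⟨m, rfl⟩ : ∃ m', m = m' + 1 := ⟨m - 1, by omega⟩
    by_cases h : c = d
    · simp [mk, h, mk_const, path, tr_sum]
    · simp [mk, h, Ne.symm h, mk_const]
  | cons e v ih =>
    obtain ⟨m, rfl⟩ : ∃ m', m = m' + 1 := ⟨m - 1, by omega⟩
    by_cases h : c = d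
    · subst h
      simp only [mk, List.cons_prefix_cons, true_and, if_true, path,
        ih e _ (show v.length + 1 ≤ m by simpa using hm)]
      cases e <;> simp
    · simp [mk, h, Ne.symm h, mk_const]

lemma mk_abs (c : Bool) (m : ℕ) {f : List Bool → ℝ} {a : ℝ} (h : ∀ w, |f w| ≤ a) :
    |mk c m f| ≤ a :=
  abs_le.2 ⟨(mk_const c m _).ge.trans (mk_mono c m fun w _ => (abs_le.1 (h w)).1),
    (mk_mono c m fun w _ => (abs_le.1 (h w)).2).trans (mk_const c m _).le⟩

lemma mk_add (c : Bool) (m : ℕ) (f g : List Bool → ℝ) :
    (mk c m fun w => f w + g w) = mk c m f + mk c m g := by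
  simpa using mk_lin c m 1 1 f g

lemma mk_SS (v : List Bool) (c : Bool) (m : ℕ) : mk c (m + 1) (SS v) =
    mk c (m + 1) (II v) + ∑ d, tr c d * mk d m (SS v) := by
  simp only [mk, SS_cons, mk_add, mul_add, Finset.sum_add_distrib]

lemma mean (v : List Bool) (c : Bool) (m : ℕ) : |mk c m (SS v)| ≤ v.length + 4 := by
  have t0 := tau_pos
  have hp : τ⁻¹ ^ 2 ≤ 1 / 2 := by nlinarith [pr_sum, q_pos]
  have h1 : ∀ m, |mk false m (SS v) - mk true m (SS v)| ≤ 4 := by
    intro m
    induction m with
    | zero => simp [mk]
    | succ m ih =>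
      have a := abs_le.1 (mk_abs false (m + 1) (II_le v))
      have b := abs_le.1 (mk_abs true (m + 1) (II_le v))
      rw [mk_SS, mk_SS]
      simp only [Fintype.sum_bool, tr]
      rw [abs_le] at ih ⊢
      rw [show τ⁻¹ * mk false m (SS v) = (1 - τ⁻¹ ^ 2) * mk false m (SS v) by
        rw [← pr_sum]; ring]
      have := sq_nonneg τ⁻¹
      constructor <;> nlinarith
  have h2 : ∀ m, |ini false * mk false m (SS v) + ini true * mk true m (SS v)| ≤
      min m v.length := by
    intro m
    induction m with
    | zero => simp [mk, SS, occ]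
    | succ m ih =>
      have e : ini false * mk false (m + 1) (SS v) + ini true * mk true (m + 1) (SS v) =
          ini false * mk false (m + 1) (II v) + ini true * mk true (m + 1) (II v) +
          (ini false * mk false m (SS v) + ini true * mk true m (SS v)) := by
        rw [mk_SS, mk_SS]
        have hA : ini false * τ⁻¹ ^ 2 = ini true := by
          simp only [ini]
          field_simp
        simp only [Fintype.sum_bool, tr]
        linear_combination (mk true m (SS v) - mk false m (SS v)) * hA +
          ini false * mk false m (SS v) * pr_sum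
      rw [e]
      refine (abs_add_le _ _).trans ?_
      by_cases hm : v.length ≤ m + 1
      · have : ini false * mk false (m + 1) (II v) + ini true * mk true (m + 1) (II v) = 0 := by
          have e2 : ∀ c, mk c (m + 1) (II v) =
              (mk c (m + 1) fun u => if v <+: u then 1 else 0) - parry v := fun c => by
            unfold II
            simp only [sub_eq_add_neg, mk_add, mk_const]
          rw [e2, e2]
          cases v with
          | nil => simp [mk_const, parry]
          | cons d v =>
            rw [mk_pre d v _ hm, mk_pre d v _ hm]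
            cases d <;> simp [parry]
            · linear_combination (-(ini false * path false v)) * ini_sum
            · linear_combination (-(ini true * path true v)) * ini_sum
        rw [this, abs_zero, zero_add]
        exact ih.trans (Nat.cast_le.2 (by omega))
      · have a := abs_le.1 (mk_abs false (m + 1) (II_le v))
        have b := abs_le.1 (mk_abs true (m + 1) (II_le v))
        have : |ini false * mk false (m + 1) (II v) + ini true * mk true (m + 1) (II v)| ≤ 1 := by
          rw [abs_le]
          constructor <;> nlinarith [ini_sum, ini_pos true, ini_pos false]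
        rw [show min (m + 1) v.length = min m v.length + 1 by omega]
        push_cast at ih ⊢
        linarith
  have a := abs_le.1 (h1 m)
  have b := abs_le.1 ((h2 m).trans (Nat.cast_le.2 (min_le_right _ _)))
  rw [abs_le]
  rw [show ini false = 1 - ini true by linarith [ini_sum]] at b
  have := ini_pos true
  have : ini true ≤ 1 := by linarith [ini_sum, ini_pos false]
  cases c <;> constructor <;> nlinarith

lemma cross (v : List Bool) {k : ℕ} {h : List Bool → ℝ} (hd : Dep k h) (hb : ∀ w, |h w| ≤ 1)
    (c : Bool) (m : ℕ) : (mk c m fun w => h w * SS v w) ≤ v.length + 4 + k := by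
  induction k generalizing h c m with
  | zero =>
    rw [hd.zero]
    have := mk_lin c m (h []) 0 (SS v) (SS v)
    simp only [zero_mul, add_zero] at this
    rw [this]
    refine (le_abs_self _).trans ?_
    rw [abs_mul]
    have := mul_le_mul (hb []) (mean v c m) (abs_nonneg _) zero_le_one
    push_cast
    linarith
  | succ k ih =>
    cases m with
    | zero => simp only [mk, SS, occ]; simp; positivity
    | succ m =>
      rw [← mk_const c (m + 1) (v.length + 4 + (k + 1 : ℕ)), mk, mk]
      refine Finset.sum_le_sum fun d _ => mul_le_mul_of_nonneg_left ?_ (tr_nonneg c d)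
      simp only [SS_cons, mul_add, mk_add, mk_const]
      have a := ih (hd.app c []) (fun w => hb _) d m
      have b := (abs_le.1 (mk_abs d m (f := fun w => h (c :: w) * II v (c :: w)) fun w => by
        rw [abs_mul]; exact mul_le_one₀ (hb _) (abs_nonneg _) (II_le _ _))).2
      simp only [List.nil_append] at a
      push_cast
      linarith

lemma var (v : List Bool) (c : Bool) (m : ℕ) :
    (mk c m fun w => SS v w ^ 2) ≤ (4 * v.length + 9) * m := by
  induction m generalizing c with
  | zero => simp [mk, SS, occ]
  | succ m ih =>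
    rw [← mk_const c (m + 1) ((4 * v.length + 9) * (m + 1 : ℕ)), mk, mk]
    refine Finset.sum_le_sum fun d _ => mul_le_mul_of_nonneg_left ?_ (tr_nonneg c d)
    have a := cross v (k := v.length) (h := fun w => II v (c :: w))
      (fun u w hu => II_dep v (c :: u) w (by simp; omega)) (fun w => II_le _ _) d m
    have b := (abs_le.1 (mk_abs d m (f := fun w => II v (c :: w) ^ 2) (a := 1) fun w => by
      rw [abs_pow]; exact pow_le_one₀ (abs_nonneg _) (II_le _ _))).2
    have e : (mk d m fun w => SS v (c :: w) ^ 2) = (mk d m fun w => II v (c :: w) ^ 2) +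
        (2 * (mk d m fun w => II v (c :: w) * SS v w) + 1 * mk d m fun w => SS v w ^ 2) := by
      rw [← mk_lin, ← mk_add]
      congr 1
      funext w
      rw [SS_cons]
      ring
    rw [e, mk_const]
    push_cast
    linarith [ih d]

lemma SS_app (v u w : List Bool) : |SS v (u ++ w) - SS v u| ≤ w.length + min u.length v.length := by
  induction u with
  | nil =>
    induction w with
    | nil => simp
    | cons c w ih =>
      have := II_le v (c :: w)
      simp only [List.nil_append, SS_cons, List.length_cons, List.length_nil, zero_le, min_eq_left,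
        abs_le] at *
      push_cast at *
      constructor <;> linarith
  | cons c u ih =>
    rw [List.cons_append, SS_cons, SS_cons]
    by_cases h : v.length ≤ (c :: u).length
    · rw [← List.cons_append, II_dep v _ w h, add_sub_add_left_eq_sub]
      exact ih.trans (by gcongr; simp)
    · have : |II v (c :: (u ++ w)) - II v (c :: u)| ≤ 1 := by
        unfold II
        rw [abs_le]
        split_ifs <;> constructor <;> linarith
      simp only [List.length_cons] at h ⊢
      rw [show min (u.length + 1) v.length = min u.length v.length + 1 by omega]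
      rw [abs_le] at *
      push_cast at *
      constructor <;> linarith

/-- The bad words at scale `j`. -/
def Bad (v : List Bool) (ε : ℝ) (j : ℕ) : Set (List Bool) :=
  {u | j ^ 3 ≤ u.length ∧ ε * j ^ 3 ≤ |SS v (u.take (j ^ 3))|}

lemma bad_le (v : List Bool) {ε : ℝ} (hε : 0 < ε) (α : Bool) (n j : ℕ) :
    iter α n ((Bad v ε (j + 1)).indicator 1) ≤ (4 * v.length + 9) / (ε ^ 2 * (j + 1) ^ 3) := by
  obtain ⟨k, hk⟩ : ∃ k, (j + 1) ^ 3 = k + 1 := ⟨_, (Nat.succ_pred_eq_of_pos (by positivity)).symm⟩
  have hk' : ((j : ℝ) + 1) ^ 3 = k + 1 := by exact_mod_cast hk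
  have mem : ∀ u w : List Bool, k + 1 ≤ u.length → (u ++ w ∈ Bad v ε (j + 1) ↔
      u ∈ Bad v ε (j + 1)) := fun u w hu => by
    simp only [Bad, hk, Set.mem_ofPred_eq, List.take_append_of_le_length hu, List.length_append]
    exact and_congr_left' (by omega)
  have dep : Dep (k + 1) ((Bad v ε (j + 1)).indicator 1) := fun u w hu => by
    by_cases h : u ∈ Bad v ε (j + 1)
    · rw [Set.indicator_of_mem h, Set.indicator_of_mem ((mem u w hu).2 h)]; rfl
    · rw [Set.indicator_of_notMem h, Set.indicator_of_notMem (mt (mem u w hu).1 h)]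
  refine (dom α n dep fun u w => ?_).trans ?_
  · by_cases h : u ∈ Bad v ε (j + 1)
    · exact (dep u w (hk ▸ h.1)).ge
    · rw [Set.indicator_of_notMem h]
      exact Set.indicator_nonneg (fun _ _ => zero_le_one) _
  rw [stab dep le_rfl]
  have h1 := mk_lin α (k + 1) (1 / (ε * (k + 1)) ^ 2) 0 (fun w => SS v w ^ 2) fun _ => 0
  have h2 := var v α (k + 1)
  refine (mk_mono α (k + 1) fun w hw => ?_).trans (h1.le.trans ?_)
  · by_cases h : w ∈ Bad v ε (j + 1)
    · rw [Set.indicator_of_mem h]
      have := h.2
      rw [hk, List.take_of_length_le hw.le] at this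
      push_cast at this
      rw [hk'] at this
      have := pow_le_pow_left₀ (by positivity) this 2
      rw [sq_abs] at this
      rw [mul_zero, add_zero, one_div_mul_eq_div, Pi.one_apply, one_le_div (by positivity)]
      exact this
    · rw [Set.indicator_of_notMem h]
      positivity
  · rw [zero_mul, add_zero, one_div_mul_eq_div, hk', div_le_div_iff₀ (by positivity)
      (by positivity)]
    push_cast at h2
    have : (0 : ℝ) ≤ ε ^ 2 * (k + 1) := by positivity
    nlinarith [mul_le_mul_of_nonneg_right h2 this]

lemma cube (m : ℕ) : ∃ j, j ^ 3 ≤ m ∧ m < (j + 1) ^ 3 := by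
  induction m with
  | zero => exact ⟨0, by simp⟩
  | succ m ih =>
    obtain ⟨j, h1, h2⟩ := ih
    by_cases h : m + 1 < (j + 1) ^ 3
    · exact ⟨j, by omega, h⟩
    · exact ⟨j + 1, by omega, lt_of_le_of_lt h2 (Nat.pow_lt_pow_left (by omega) (by norm_num))⟩

lemma main {Ω : Type*} [MeasurableSpace Ω] (P : Measure Ω) (α : Bool) (W : ℕ → Ω → List Bool)
    (hW : ∀ n (B : Set (List Bool)), P (W n ⁻¹' B) = ENNReal.ofReal (iter α n (B.indicator 1)))
    (v : List Bool) {ε : ℝ} (hε : 0 < ε) :
    ∀ᵐ ω ∂P, ∀ᶠ n in atTop, |(occ v (W n ω) : ℝ) / (W n ω).length - parry v| ≤ 2 * ε := by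
  have h1 : ∀ᵐ ω ∂P, ∀ n, 2 ^ n ≤ (W n ω).length := by
    rw [ae_all_iff]
    intro n
    have := hW n {u | ¬2 ^ n ≤ u.length}
    rw [ENNReal.ofReal_of_nonpos ((iter_mono α n fun w hw =>
      (Set.indicator_of_notMem (by simpa using hw) _).le).trans (iter_const α n 0).le)] at this
    exact this
  let g : ℕ × ℕ → ℝ := fun p => (4 / 5) ^ p.1 * ((4 * v.length + 9) * 2 / ε ^ 2 *
    (1 / ((p.2 + 1 : ℕ) : ℝ) ^ 2))
  have g0 : ∀ p, 0 ≤ g p := fun p => by positivity
  have gs : Summable g := summable_mul_of_summable_norm (R := ℝ)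
    (summable_geometric_of_lt_one (r := 4 / 5) (by norm_num) (by norm_num)).norm
    (((summable_nat_add_iff 1).2 (Real.summable_one_div_nat_pow.2 one_lt_two)).mul_left
      ((4 * v.length + 9) * 2 / ε ^ 2)).norm
  let s : ℕ × ℕ → Set Ω := fun p => W p.1 ⁻¹' (Bad v ε (p.2 + 1) ∩ {_u | 2 ^ p.1 < (p.2 + 2) ^ 3})
  have h2 := ae_finite_setOfPred_mem (μ := P) (s := s) (ne_top_of_le_ne_top
    (by rw [← ENNReal.ofReal_tsum_of_nonneg g0 gs]; exact ENNReal.ofReal_ne_top)
    (ENNReal.tsum_le_tsum (g := fun p => ENNReal.ofReal (g p)) fun ⟨n, j⟩ => by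
      by_cases h : 2 ^ n < (j + 2) ^ 3
      · refine (measure_mono (Set.preimage_mono Set.inter_subset_left)).trans ?_
        rw [hW]
        refine ENNReal.ofReal_le_ofReal ((bad_le v hε α n j).trans ?_)
        have a1 : (1 : ℝ) ≤ (4 / 5) ^ n * (j + 2) := by
          refine le_of_pow_le_pow_left₀ three_ne_zero (by positivity) ?_
          have b1 : (2 : ℝ) ^ n ≤ (j + 2) ^ 3 := by exact_mod_cast h.le
          have b2 : (1 : ℝ) ≤ ((4 / 5) ^ 3 * 2) ^ n := one_le_pow₀ (by norm_num)
          rw [one_pow, mul_pow, ← pow_mul, mul_comm n, pow_mul]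
          rw [mul_pow] at b2
          exact b2.trans (by gcongr)
        simp only [g]
        push_cast
        have j0 : (0 : ℝ) ≤ j := by positivity
        have a2 : (1 : ℝ) ≤ (4 / 5) ^ n * (2 * (j + 1)) := a1.trans (by gcongr; linarith)
        rw [div_le_iff₀ (by positivity)]
        calc _ ≤ (4 * v.length + 9) * ((4 / 5 : ℝ) ^ n * (2 * (j + 1))) :=
              le_mul_of_one_le_right (by positivity) a2
          _ = _ := by field_simp
      · simp [s, h]))
  filter_upwards [h1, h2] with ω h1 h2
  obtain ⟨N, hN⟩ := (h2.image Prod.fst).bddAbove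
  obtain ⟨J, hJ⟩ := exists_nat_ge ((7 + v.length) / ε)
  filter_upwards [eventually_gt_atTop N, eventually_ge_atTop ((J + 1 + 1) ^ 3)] with n hn hn'
  obtain ⟨j, j1, j2⟩ := cube (W n ω).length
  have a1 := h1 n
  have a2 : J + 1 ≤ j := by
    have := (Nat.pow_lt_pow_iff_left three_ne_zero).1
      ((hn'.trans (Nat.lt_two_pow_self.le.trans a1)).trans_lt j2)
    omega
  obtain ⟨j, rfl⟩ : ∃ j', j = j' + 1 := ⟨j - 1, by omega⟩
  have a3 : |SS v ((W n ω).take ((j + 1) ^ 3))| < ε * ((j + 1 : ℕ) : ℝ) ^ 3 := by
    by_contra hc
    exact absurd (hN ⟨(n, j), ⟨⟨j1, not_lt.1 hc⟩, a1.trans_lt j2⟩, rfl⟩) (not_le.2 hn)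
  have a4 := SS_app v ((W n ω).take ((j + 1) ^ 3)) ((W n ω).drop ((j + 1) ^ 3))
  rw [List.take_append_drop] at a4
  have a5 : ((W n ω).drop ((j + 1) ^ 3)).length ≤ 7 * (j + 1) ^ 2 := by
    rw [List.length_drop]
    have : (j + 1 + 1) ^ 3 ≤ (j + 1) ^ 3 + 7 * (j + 1) ^ 2 := by nlinarith
    omega
  have a6 := (abs_sub_abs_le_abs_sub _ _).trans (a4.trans (add_le_add (Nat.cast_le.2 a5)
    (Nat.cast_le.2 (min_le_right _ _))))
  have b1 : ((j + 1 : ℕ) : ℝ) ^ 3 ≤ (W n ω).length := by exact_mod_cast j1
  have b2 : (J : ℝ) + 1 ≤ (j + 1 : ℕ) := by exact_mod_cast a2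
  push_cast at a6 b1 b2 a3
  have b3 : (1 : ℝ) ≤ j + 1 := by linarith [Nat.cast_nonneg (α := ℝ) j]
  generalize (j + 1 : ℝ) = x at *
  have b4 : (0 : ℝ) < (W n ω).length := lt_of_lt_of_le (by positivity) b1
  rw [div_le_iff₀ hε] at hJ
  have b5 : 7 + v.length ≤ ε * x := by nlinarith
  have b6 : 1 ≤ x ^ 2 := one_le_pow₀ b3
  have b7 : (7 + v.length) * x ^ 2 ≤ ε * x * x ^ 2 := by gcongr
  have b8 : (v.length : ℝ) * 1 ≤ v.length * x ^ 2 := by gcongr
  have b9 : ε * x ^ 3 ≤ ε * (W n ω).length := by gcongr
  rw [div_sub' b4.ne', abs_div, abs_of_pos b4, div_le_iff₀ b4, mul_comm _ (parry v)]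
  change |SS v (W n ω)| ≤ _
  nlinarith

theorem result : (∀ α, rea α false ≠ rea α true) ∧ (∀ α i, rea α i ≠ []) ∧ (∀ i, 0 < pr i) ∧
    ∑ i, pr i = 1 ∧ (∀ β α, 0 < mat β α) ∧
    ∀ (Ω : Type) [MeasurableSpace Ω] (P : Measure Ω) [IsProbabilityMeasure P] (α : Bool)
      (W : ℕ → Ω → List Bool),
      (∀ n (B : Set (List Bool)), P (W n ⁻¹' B) = ENNReal.ofReal (iter α n (B.indicator 1))) →
      ∀ v, ∀ᵐ ω ∂P,
        Tendsto (fun n => (occ v (W n ω) : ℝ) / (W n ω).length) atTop (𝓝 (parry v)) := by
  refine ⟨by decide, by decide, pr_pos, by simpa [pr, add_comm] using pr_sum, fun β α => ?_,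
    fun Ω _ P _ α W hW v => ?_⟩
  · have := pr_pos true
    have := pr_pos false
    cases β <;> cases α <;> simp [mat, rea] <;> positivity
  · have := ae_all_iff.2 fun k : ℕ => main P α W hW v (Nat.one_div_pos_of_nat (n := k))
    filter_upwards [this] with ω h
    rw [Metric.tendsto_nhds]
    intro ε hε
    obtain ⟨k, hk⟩ := exists_nat_one_div_lt (half_pos hε)
    filter_upwards [h k] with n hn
    rw [Real.dist_eq]
    linarith

end Pool.Agent.Results.MP_3f28ca_an.Parry
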